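import Mathlib

/-!
# Large non-separating independent sets in duals of link diagrams

A connected 4-valent plane graph is given by its combinatorial map (ends of edges at the crossings,
in counterclockwise order, and the pairing of the two ends of each edge), the plane being expressed
by Euler's formula. For reduced diagrams the four regions at a crossing are distinct (proved by
splitting the crossing and the inequality `ree`), and a maximal set of regions with at most four
corners, no two at a common crossing, is independent, non-separating and of linear size.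
-/

set_option autoImplicit false
open Equiv

namespace Pool.Agent.Results.MP_1d20a2_co.NonSeparating

/-- The number of cycles (fixed points included) of a permutation. -/
noncomputable def cyc {D : Type} (σ : Perm D) : ℕ := Nat.card (Quot fun d d' : D => d' = σ d)

/-- Ree's inequality, by linear algebra. -/
theorem ree {D : Type} [Fintype D] [Nonempty D] (a b : Perm D)
    (hc : ∀ X : Set D, X.Nonempty → (∀ d ∈ X, a d ∈ X) → (∀ d ∈ X, b d ∈ X) → X = Set.univ) :
    cyc a + cyc b + cyc (a⁻¹ * b) ≤ Fintype.card D + 2 := by
  classical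
  let Qa := Quot fun d d' : D => d' = a d
  let Qb := Quot fun d d' : D => d' = b d
  let Qc := Quot fun d d' : D => d' = (a⁻¹ * b) d
  let _ : Fintype Qa := Fintype.ofFinite _
  let _ : Fintype Qb := Fintype.ofFinite _
  let _ : Fintype Qc := Fintype.ofFinite _
  let ma : D → Qa := Quot.mk _
  let mb : D → Qb := Quot.mk _
  let mc : D → Qc := Quot.mk _
  have ha : ∀ d, ma (a d) = ma d := fun d => (Quot.sound (r := fun d d' : D => d' = a d) rfl).symm
  have hb : ∀ d, mb (b d) = mb d := fun d => (Quot.sound (r := fun d d' : D => d' = b d) rfl).symm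
  have hcc : ∀ d, mc (a⁻¹ (b d)) = mc d := fun d =>
    (Quot.sound (r := fun d d' : D => d' = (a⁻¹ * b) d) rfl).symm
  have ha' : ∀ d, ma (a⁻¹ d) = ma d := fun d => by rw [← ha (a⁻¹ d)]; simp
  have hb' : ∀ d, mb (b⁻¹ d) = mb d := fun d => by rw [← hb (b⁻¹ d)]; simp
  have hc' : ∀ d, mc (a⁻¹ d) = mc (b⁻¹ d) := fun d => by rw [← hcc (b⁻¹ d)]; simp
  let T : ((D → ℚ) × (D → ℚ)) →ₗ[ℚ] (D → ℚ) :=
    { toFun := fun p d => (p.1 (a⁻¹ d) - p.1 d) + (p.2 (b⁻¹ d) - p.2 d)
      map_add' := by intro p q; ext d; simp; ring
      map_smul' := by intro c p; ext d; simp; ring }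
  let S : ((Qa → ℚ) × (Qb → ℚ) × (Qc → ℚ)) →ₗ[ℚ] ((D → ℚ) × (D → ℚ)) :=
    { toFun := fun p => (fun d => p.1 (ma d) + p.2.2 (mc d), fun d => p.2.1 (mb d) - p.2.2 (mc d))
      map_add' := by
        intro p q
        refine Prod.ext (funext fun d => ?_) (funext fun d => ?_) <;> simp <;> ring
      map_smul' := by
        intro c p
        refine Prod.ext (funext fun d => ?_) (funext fun d => ?_) <;> simp <;> ring }
  have hST : LinearMap.range S ≤ LinearMap.ker T := by
    rintro _ ⟨p, rfl⟩
    rw [LinearMap.mem_ker]
    ext d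
    simp only [T, S, LinearMap.coe_mk, AddHom.coe_mk, ha', hb', hc', Pi.zero_apply]
    ring
  obtain ⟨x0⟩ := ‹Nonempty D›
  have hkS : Module.finrank ℚ (LinearMap.ker S) ≤ 1 := by
    let ev : LinearMap.ker S →ₗ[ℚ] ℚ :=
      { toFun := fun p => p.1.2.2 (mc x0)
        map_add' := by intro p q; simp
        map_smul' := by intro c p; simp }
    have hinj : Function.Injective ev := by
      rw [← LinearMap.ker_eq_bot, LinearMap.ker_eq_bot']
      rintro ⟨⟨f, g, h⟩, hp⟩ h0
      rw [LinearMap.mem_ker] at hp
      have h1 : ∀ d, f (ma d) + h (mc d) = 0 := fun d => congrFun (congrArg Prod.fst hp) d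
      have h2 : ∀ d, g (mb d) - h (mc d) = 0 := fun d => congrFun (congrArg Prod.snd hp) d
      have h0' : h (mc x0) = 0 := h0
      have hall : {d | h (mc d) = 0} = Set.univ := by
        apply hc
        · exact ⟨x0, h0'⟩
        · intro d hd
          have hd' : h (mc d) = 0 := hd
          have e1 := h1 d
          have e2 := h1 (a d)
          rw [ha d] at e2
          change h (mc (a d)) = 0
          linarith
        · intro d hd
          have hd' : h (mc d) = 0 := hd
          have e1 := h2 d
          have e2 := h2 (b d)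
          rw [hb d] at e2
          change h (mc (b d)) = 0
          linarith
      have hh : ∀ d, h (mc d) = 0 := fun d => by
        have : d ∈ {d | h (mc d) = 0} := by rw [hall]; trivial
        exact this
      apply Subtype.ext
      refine Prod.ext (funext fun q => ?_) (Prod.ext (funext fun q => ?_) (funext fun q => ?_))
      · obtain ⟨d, rfl⟩ := Quot.exists_rep q
        have := h1 d
        rw [hh d, add_zero] at this
        exact this
      · obtain ⟨d, rfl⟩ := Quot.exists_rep q
        have := h2 d
        rw [hh d, sub_zero] at this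
        exact this
      · obtain ⟨d, rfl⟩ := Quot.exists_rep q
        exact hh d
    have := LinearMap.finrank_le_finrank_of_injective hinj
    rwa [Module.finrank_self] at this
  have hT : Fintype.card D ≤ Module.finrank ℚ (LinearMap.range T) + 1 := by
    let W : Submodule ℚ (D → ℚ) := LinearMap.range T ⊔ Submodule.span ℚ {Pi.single x0 (1 : ℚ)}
    have hW : ∀ d, Pi.single d (1 : ℚ) ∈ W := by
      have : {d | Pi.single d (1 : ℚ) ∈ W} = Set.univ := by
        apply hc
        · exact ⟨x0, Submodule.mem_sup_right (Submodule.mem_span_singleton_self _)⟩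
        · intro d hd
          have hd' : Pi.single d (1 : ℚ) ∈ W := hd
          have h1 : T (Pi.single d 1, 0) ∈ W := Submodule.mem_sup_left ⟨_, rfl⟩
          have h2 : Pi.single (a d) (1 : ℚ) = T (Pi.single d 1, 0) + Pi.single d 1 := by
            ext e
            simp only [T, LinearMap.coe_mk, AddHom.coe_mk, Pi.add_apply, Pi.zero_apply]
            have : (Pi.single d (1:ℚ) : D → ℚ) (a⁻¹ e) = (Pi.single (a d) (1:ℚ) : D → ℚ) e := by
              rw [Pi.single_apply, Pi.single_apply]
              congr 1
              exact propext ⟨fun h => by rw [← h]; simp, fun h => by rw [h]; simp⟩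
            rw [this]; ring
          change Pi.single (a d) (1 : ℚ) ∈ W
          rw [h2]
          exact W.add_mem h1 hd'
        · intro d hd
          have hd' : Pi.single d (1 : ℚ) ∈ W := hd
          have h1 : T (0, Pi.single d 1) ∈ W := Submodule.mem_sup_left ⟨_, rfl⟩
          have h2 : Pi.single (b d) (1 : ℚ) = T (0, Pi.single d 1) + Pi.single d 1 := by
            ext e
            simp only [T, LinearMap.coe_mk, AddHom.coe_mk, Pi.add_apply, Pi.zero_apply]
            have : (Pi.single d (1:ℚ) : D → ℚ) (b⁻¹ e) = (Pi.single (b d) (1:ℚ) : D → ℚ) e := by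
              rw [Pi.single_apply, Pi.single_apply]
              congr 1
              exact propext ⟨fun h => by rw [← h]; simp, fun h => by rw [h]; simp⟩
            rw [this]; ring
          change Pi.single (b d) (1 : ℚ) ∈ W
          rw [h2]
          exact W.add_mem h1 hd'
      intro d
      have : d ∈ {d | Pi.single d (1 : ℚ) ∈ W} := by rw [this]; trivial
      exact this
    have htop : W = ⊤ := by
      rw [eq_top_iff]
      intro f _
      have : f = ∑ d, f d • (Pi.single d (1:ℚ) : D → ℚ) := by
        ext e
        simp [Finset.sum_apply, Pi.single_apply]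
      rw [this]
      exact W.sum_mem fun d _ => W.smul_mem _ (hW d)
    have h1 : Module.finrank ℚ W ≤ Module.finrank ℚ (LinearMap.range T) + 1 := by
      refine (Submodule.finrank_add_le_finrank_add_finrank _ _).trans ?_
      gcongr
      exact (finrank_span_le_card _).trans (by simp)
    rw [htop, finrank_top, Module.finrank_fintype_fun_eq_card] at h1
    exact h1
  have e1 := LinearMap.finrank_range_add_finrank_ker S
  have e2 := LinearMap.finrank_range_add_finrank_ker T
  have e3 := Submodule.finrank_mono hST
  simp only [Module.finrank_prod, Module.finrank_fintype_fun_eq_card] at e1 e2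
  have c1 : cyc a = Fintype.card Qa := Nat.card_eq_fintype_card
  have c2 : cyc b = Fintype.card Qb := Nat.card_eq_fintype_card
  have c3 : cyc (a⁻¹ * b) = Fintype.card Qc := Nat.card_eq_fintype_card
  omega


theorem sameCycle_of_quot {D : Type} (σ : Perm D) (d e : D)
    (h : Quot.mk (fun d d' : D => d' = σ d) d = Quot.mk _ e) : σ.SameCycle d e := by
  have h' := Quot.eqvGen_exact h
  clear h
  induction h' with
  | rel a b hab => rw [hab]; exact Equiv.Perm.SameCycle.rfl.apply_right
  | refl a => exact Equiv.Perm.SameCycle.rfl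
  | symm a b _ ih => exact ih.symm
  | trans a b c h1 h2 ih1 ih2 => exact ih1.trans ih2

theorem cyc_lt {D : Type} [Finite D] [DecidableEq D] (σ : Perm D) (x y : D) (hxy : x ≠ y)
    (hq : Quot.mk (fun d d' : D => d' = σ d) x = Quot.mk _ y) :
    cyc σ < cyc (σ * swap x y) := by
  classical
  have hs := sameCycle_of_quot σ x y hq
  have hex : ∃ k, 0 < k ∧ (σ ^ k) x = y := by
    obtain ⟨i, hi, _, h⟩ := hs.exists_pow_eq''
    exact ⟨i, hi, h⟩
  let k := Nat.find hex
  obtain ⟨hk0, hk⟩ : 0 < k ∧ (σ ^ k) x = y := Nat.find_spec hex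
  have hmin : ∀ j, 0 < j → j < k → (σ ^ j) x ≠ y := fun j hj hjk h =>
    Nat.find_min hex hjk ⟨hj, h⟩
  let X : Set D := {z | ∃ i, 0 < i ∧ i ≤ k ∧ z = (σ ^ i) x}
  have hxX : x ∉ X := by
    rintro ⟨i, hi0, hik, hi⟩
    have hne : i ≠ k := fun h => hxy (by rw [hi, h, hk])
    refine hmin (k - i) (by omega) (by omega) ?_
    have : (σ ^ k) x = (σ ^ (k - i)) ((σ ^ i) x) := by
      rw [← Equiv.Perm.mul_apply, ← pow_add]; congr 2; omega
    rw [← hi, hk] at this
    exact this.symm
  have hyX : y ∈ X := ⟨k, hk0, le_rfl, hk.symm⟩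
  have hcl : ∀ z ∈ X, (σ * swap x y) z ∈ X := by
    rintro z ⟨i, hi0, hik, rfl⟩
    by_cases hzy : (σ ^ i) x = y
    · rw [hzy]
      refine ⟨1, one_pos, hk0, ?_⟩
      simp
    · have hne : i ≠ k := fun h => hzy (by rw [h, hk])
      have hzx : (σ ^ i) x ≠ x := fun h => hxX (by rw [← h]; exact ⟨i, hi0, hik, rfl⟩)
      refine ⟨i + 1, by omega, by omega, ?_⟩
      rw [Equiv.Perm.mul_apply, swap_apply_of_ne_of_ne hzx hzy, pow_succ', Equiv.Perm.mul_apply]
  have hcl' : ∀ n : ℕ, ((σ * swap x y) ^ n) y ∈ X := by
    intro n
    induction n with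
    | zero => simpa using hyX
    | succ n ih => rw [pow_succ', Equiv.Perm.mul_apply]; exact hcl _ ih
  have hswap : ∀ d, Quot.mk (fun d d' : D => d' = σ d) (swap x y d) = Quot.mk _ d := by
    intro d
    by_cases h1 : d = x
    · rw [h1, swap_apply_left]; exact hq.symm
    · by_cases h2 : d = y
      · rw [h2, swap_apply_right]; exact hq
      · rw [swap_apply_of_ne_of_ne h1 h2]
  let f : (Quot fun d d' : D => d' = (σ * swap x y) d) → Quot fun d d' : D => d' = σ d :=
    Quot.lift (Quot.mk _) (by
      intro d d' h
      rw [h, Equiv.Perm.mul_apply, ← hswap d]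
      exact Quot.sound rfl)
  have hfs : Function.Surjective f := by
    intro q
    obtain ⟨d, rfl⟩ := Quot.exists_rep q
    exact ⟨Quot.mk _ d, rfl⟩
  have hfi : ¬ Function.Injective f := by
    intro hinj
    have h1 : Quot.mk (fun d d' : D => d' = (σ * swap x y) d) y = Quot.mk _ x := hinj hq.symm
    obtain ⟨n, _, hn⟩ := (sameCycle_of_quot _ _ _ h1).exists_pow_eq'
    exact hxX (hn ▸ hcl' n)
  let _ : Fintype (Quot fun d d' : D => d' = (σ * swap x y) d) := Fintype.ofFinite _
  let _ : Fintype (Quot fun d d' : D => d' = σ d) := Fintype.ofFinite _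
  unfold cyc
  rw [Nat.card_eq_fintype_card, Nat.card_eq_fintype_card]
  exact Fintype.card_lt_of_surjective_not_injective f hfs hfi

/-- The edge ends at a crossing `v` are `(v, 0), (v, 1), (v, 2), (v, 3)`, in counterclockwise
order; `rot` is the next end counterclockwise. -/
def rot {V : Type} (d : V × ZMod 4) : V × ZMod 4 := (d.1, d.2 + 1)

/-- A connected 4-valent plane graph with vertex set `V` (loops and multiple edges allowed), i.e. the
projection of a non-split link diagram with the set `V` of crossings, as a combinatorial map: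
`opp d` is the other end of the edge with end `d`; the graph is connected; and the number of its
regions is `|V| + 2`, which is Euler's formula `|V| - 2|V| + F = 2` (there are `2|V|` edges). The
end `d` stands also for the corner between `d` and `rot d`; walking along the edge from `d` to
`opp d` with this corner on the left, one arrives in the corner `d'` between `d'` and
`rot d' = opp d`; the regions are the classes of corners generated by this. -/
structure Diagram (V : Type) [Fintype V] where
  opp : V × ZMod 4 → V × ZMod 4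
  opp_opp : ∀ d, opp (opp d) = d
  opp_ne : ∀ d, opp d ≠ d
  connected : ∀ X : Set (V × ZMod 4), X.Nonempty → (∀ d ∈ X, rot d ∈ X) →
    (∀ d ∈ X, opp d ∈ X) → X = Set.univ
  euler : Nat.card (Quot fun d d' : V × ZMod 4 => opp d = rot d') = Fintype.card V + 2

/-- The regions of the diagram: classes of corners. -/
def Diagram.Region {V : Type} [Fintype V] (G : Diagram V) : Type :=
  Quot fun d d' : V × ZMod 4 => G.opp d = rot d'

/-- The region containing the corner between `d` and `rot d`: the region to the left of the edge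
with end `d`, seen from this end. -/
def Diagram.region {V : Type} [Fintype V] (G : Diagram V) (d : V × ZMod 4) : G.Region :=
  Quot.mk _ d

/-- The (simple graph underlying the) dual graph: two regions are adjacent if they are on the two
sides of some edge. -/
def Diagram.dual {V : Type} [Fintype V] (G : Diagram V) : SimpleGraph G.Region :=
  SimpleGraph.fromRel fun r r' => ∃ d, G.region d = r ∧ G.region (G.opp d) = r'

/-- The diagram is reduced: no crossing `v` is a cut vertex, i.e. the graph stays connected when the
point `v` is removed: every nonempty set of edge ends which contains with an end also the other end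
of its edge, and with an end at a crossing different from `v` all ends at this crossing, consists of
all the ends. -/
def Diagram.Reduced {V : Type} [Fintype V] (G : Diagram V) : Prop :=
  ∀ v : V, ∀ X : Set (V × ZMod 4), X.Nonempty → (∀ d ∈ X, d.1 ≠ v → rot d ∈ X) →
    (∀ d ∈ X, G.opp d ∈ X) → X = Set.univ

variable {V : Type} [Fintype V] (G : Diagram V)

def rotP : Perm (V × ZMod 4) where
  toFun := rot
  invFun d := (d.1, d.2 - 1)
  left_inv d := by simp [rot]
  right_inv d := by simp [rot]

def Diagram.oppP : Perm (V × ZMod 4) where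
  toFun := G.opp
  invFun := G.opp
  left_inv := G.opp_opp
  right_inv := G.opp_opp

def Diagram.faceP : Perm (V × ZMod 4) := (rotP : Perm (V × ZMod 4))⁻¹ * G.oppP

theorem face_rel : (fun d d' : V × ZMod 4 => d' = G.faceP d) = fun d d' => G.opp d = rot d' := by
  funext d d'
  apply propext
  unfold Diagram.faceP
  rw [Equiv.Perm.mul_apply, Equiv.Perm.eq_inv_iff_eq]
  exact eq_comm

theorem region_eq_iff (d e : V × ZMod 4) :
    (Quot.mk (fun d d' : V × ZMod 4 => d' = G.faceP d) d = Quot.mk _ e) ↔
    G.region d = G.region e := by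
  rw [face_rel]; rfl

theorem card_faces : cyc G.faceP = Fintype.card V + 2 := by
  unfold cyc
  rw [face_rel]; exact G.euler

theorem card_V_le : Fintype.card V ≤ cyc (rotP : Perm (V × ZMod 4)) := by
  unfold cyc
  rw [← Nat.card_eq_fintype_card]
  let f : (Quot fun d d' : V × ZMod 4 => d' = rotP d) → V := Quot.lift Prod.fst (by
    intro d d' h; rw [h]; rfl)
  exact Nat.card_le_card_of_surjective f (fun v => ⟨Quot.mk _ (v, 0), rfl⟩)

theorem card_opp_le : Fintype.card (V × ZMod 4) ≤ 2 * cyc G.oppP := by
  classical
  let _ : Fintype (Quot fun d d' : V × ZMod 4 => d' = G.oppP d) := Fintype.ofFinite _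
  unfold cyc
  rw [Nat.card_eq_fintype_card, ← Finset.card_univ, ← Finset.card_univ]
  refine (Finset.card_le_mul_card_image (f := Quot.mk fun d d' : V × ZMod 4 => d' = G.oppP d)
    Finset.univ 2 ?_).trans (Nat.mul_le_mul_left _ (Finset.card_le_card (Finset.subset_univ _)))
  intro a _
  obtain ⟨d, rfl⟩ := Quot.exists_rep a
  let g : (Quot fun d d' : V × ZMod 4 => d' = G.oppP d) → Finset (V × ZMod 4) :=
    Quot.lift (fun d => {d, G.opp d}) (by
      intro d d' h
      have h' : d' = G.opp d := h
      simp only [h', G.opp_opp]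
      exact Finset.pair_comm _ _)
  refine (Finset.card_le_card (t := {d, G.opp d}) ?_).trans Finset.card_le_two
  intro x hx
  rw [Finset.mem_filter] at hx
  have : g (Quot.mk _ x) = g (Quot.mk _ d) := by rw [hx.2]
  have h2 : ({x, G.opp x} : Finset _) = {d, G.opp d} := this
  rw [← h2]; simp

theorem rot_quot (d e : V × ZMod 4) (h : d.1 = e.1) :
    Quot.mk (fun d d' : V × ZMod 4 => d' = rotP d) d = Quot.mk _ e := by
  have key : ∀ (v : V) (n : ℕ), Quot.mk (fun d d' : V × ZMod 4 => d' = rotP d) (v, (n : ZMod 4)) =
      Quot.mk _ (v, 0) := by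
    intro v n
    induction n with
    | zero => simp
    | succ n ih =>
      rw [← ih]
      refine (Quot.sound ?_).symm
      change _ = rot _
      simp [rot]
  obtain ⟨v, i⟩ := d
  obtain ⟨w, j⟩ := e
  obtain rfl : v = w := h
  obtain ⟨n, rfl⟩ := ZMod.natCast_zmod_surjective i
  obtain ⟨m, rfl⟩ := ZMod.natCast_zmod_surjective j
  rw [key, key]

/-- in a reduced diagram the four regions at a crossing are distinct -/
theorem region_ne (hr : G.Reduced) (d e : V × ZMod 4) (hv : d.1 = e.1) (hde : d ≠ e) :
    G.region d ≠ G.region e := by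
  classical
  intro h
  have : Nonempty (V × ZMod 4) := ⟨d⟩
  have h1 : cyc (rotP : Perm (V × ZMod 4)) < cyc (rotP * swap d e) :=
    cyc_lt _ _ _ hde (rot_quot d e hv)
  have h2 : cyc G.faceP < cyc (swap d e * G.faceP) := by
    rw [swap_mul_eq_mul_swap]
    apply cyc_lt
    · intro h'; exact hde (Equiv.injective _ h')
    · have e1 : ∀ x, Quot.mk (fun d d' : V × ZMod 4 => d' = G.faceP d) (G.faceP⁻¹ x) =
          Quot.mk _ x := fun x => Quot.sound (by simp)
      rw [e1, e1]
      exact (region_eq_iff G d e).2 h
  have h3 := card_opp_le G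
  have h4 := card_V_le (V := V)
  have h5 := card_faces G
  have h6 := ree (rotP * swap d e) G.oppP (by
    intro X hX hX1 hX2
    refine hr d.1 X hX ?_ hX2
    intro x hx hxv
    have := hX1 x hx
    rw [Equiv.Perm.mul_apply, swap_apply_of_ne_of_ne] at this
    · exact this
    · rintro rfl; exact hxv rfl
    · rintro rfl; exact hxv hv.symm)
  have h7 : (rotP * swap d e)⁻¹ * G.oppP = swap d e * G.faceP := by
    unfold Diagram.faceP
    rw [mul_inv_rev, swap_inv, mul_assoc]
  rw [h7] at h6
  rw [Fintype.card_prod, ZMod.card] at h3 h6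
  omega

def roti {V : Type} (d : V × ZMod 4) : V × ZMod 4 := (d.1, d.2 - 1)

theorem rot_roti (d : V × ZMod 4) : rot (roti d) = d := by simp [rot, roti]

theorem region_opp (d : V × ZMod 4) : G.region (G.opp d) = G.region (roti d) :=
  Quot.sound (by rw [G.opp_opp, rot_roti])

theorem region_roti_opp (d : V × ZMod 4) : G.region (roti (G.opp d)) = G.region d :=
  (Quot.sound (by rw [rot_roti])).symm

theorem z4 : ∀ i j : ZMod 4, (j = i ∨ j = i + 1 ∨ j = i + 1 + 1 ∨ i = j + 1) ∧ i ≠ i + 1 ∧
    i ≠ i + 1 + 1 := by decide

theorem ne_rot (d : V × ZMod 4) : d ≠ rot d := by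
  intro h
  exact (z4 d.2 d.2).2.1 (congrArg Prod.snd h)

theorem dual_adj (hr : G.Reduced) (d : V × ZMod 4) :
    G.dual.Adj (G.region d) (G.region (rot d)) := by
  rw [Diagram.dual, SimpleGraph.fromRel_adj]
  refine ⟨region_ne G hr _ _ rfl (ne_rot d), Or.inr ⟨rot d, rfl, ?_⟩⟩
  exact Quot.sound (G.opp_opp _)

theorem connected_compl (hr : G.Reduced) [Nonempty V] (S : Set G.Region)
    (hS : ∀ d e : V × ZMod 4, d.1 = e.1 → G.region d ∈ S → G.region e ∈ S → d = e) :
    (G.dual.induce Sᶜ).Connected := by
  classical
  obtain ⟨v⟩ := ‹Nonempty V›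
  obtain ⟨d0, h0⟩ : ∃ d0, G.region d0 ∈ Sᶜ := by
    by_cases h : G.region (v, 0) ∈ S
    · refine ⟨rot (v, 0), fun h' => ?_⟩
      exact ne_rot _ (hS _ _ rfl h h')
    · exact ⟨_, h⟩
  have step : ∀ (a : V × ZMod 4) (ha : G.region a ∈ Sᶜ) (hb : G.region (rot a) ∈ Sᶜ),
      (G.dual.induce Sᶜ).Reachable ⟨G.region a, ha⟩ ⟨G.region (rot a), hb⟩ := by
    intro a ha hb
    apply SimpleGraph.Adj.reachable
    exact dual_adj G hr a
  have loc : ∀ (a b : V × ZMod 4) (_ : a.1 = b.1) (ha : G.region a ∈ Sᶜ)
      (hb : G.region b ∈ Sᶜ),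
      (G.dual.induce Sᶜ).Reachable ⟨G.region a, ha⟩ ⟨G.region b, hb⟩ := by
    intro a b hab ha hb
    have hcase : b = a ∨ b = rot a ∨ b = rot (rot a) ∨ a = rot b := by
      rcases (z4 a.2 b.2).1 with h | h | h | h
      · exact Or.inl (Prod.ext hab.symm h)
      · exact Or.inr (Or.inl (Prod.ext hab.symm h))
      · exact Or.inr (Or.inr (Or.inl (Prod.ext hab.symm h)))
      · exact Or.inr (Or.inr (Or.inr (Prod.ext hab h)))
    rcases hcase with rfl | rfl | rfl | rfl
    · exact SimpleGraph.Reachable.rfl
    · exact step a ha hb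
    · by_cases h : G.region (rot a) ∈ S
      · have h3 : G.region (rot (rot (rot a))) ∈ Sᶜ := by
          intro h'
          have := hS _ _ (by rfl) h h'
          exact (z4 (a.2 + 1) 0).2.2 (congrArg Prod.snd this)
        have h4 : rot (rot (rot (rot a))) = a := by
          refine Prod.ext rfl ?_
          change a.2 + 1 + 1 + 1 + 1 = a.2
          generalize a.2 = i
          revert i; decide
        have s1 := step _ hb h3
        have h5 : G.region (rot (rot (rot (rot a)))) ∈ Sᶜ := by rw [h4]; exact ha
        have s2 := step _ h3 h5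
        have s3 : (⟨G.region (rot (rot (rot (rot a)))), h5⟩ : ↑(Sᶜ)) = ⟨G.region a, ha⟩ := by
          apply Subtype.ext
          change G.region _ = G.region _
          rw [h4]
        rw [s3] at s2
        exact (s1.trans s2).symm
      · exact (step a ha h).trans (step _ h hb)
    · exact (step b hb ha).symm
  have hX : {d : V × ZMod 4 | ∀ e : V × ZMod 4, e.1 = d.1 → ∀ he : G.region e ∈ Sᶜ,
      (G.dual.induce Sᶜ).Reachable ⟨G.region d0, h0⟩ ⟨G.region e, he⟩} = Set.univ := by
    apply G.connected
    · exact ⟨d0, fun e he h => loc _ _ he.symm _ _⟩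
    · intro d hd e he h
      exact hd e he h
    · intro d hd e he h
      by_cases h1 : G.region d ∈ S
      · have h2 : G.region (roti d) ∈ Sᶜ := by
          intro h'
          have := hS _ _ (by rfl) h' h1
          have h3 : rot (roti d) = rot d := by rw [this]
          rw [rot_roti] at h3
          exact ne_rot _ h3
        have h3 : G.region (G.opp d) ∈ Sᶜ := by rw [region_opp]; exact h2
        have h4 := hd (roti d) rfl h2
        have h5 := loc (G.opp d) e he.symm h3 h
        have h6 : (⟨G.region (roti d), h2⟩ : ↑(Sᶜ)) = ⟨G.region (G.opp d), h3⟩ :=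
          Subtype.ext (region_opp G d).symm
        rw [h6] at h4
        exact h4.trans h5
      · have h3 : G.region (roti (G.opp d)) ∈ Sᶜ := by rw [region_roti_opp]; exact h1
        have h4 := hd d rfl h1
        have h5 := loc (roti (G.opp d)) e he.symm h3 h
        have h6 : (⟨G.region d, h1⟩ : ↑(Sᶜ)) = ⟨G.region (roti (G.opp d)), h3⟩ :=
          Subtype.ext (region_roti_opp G d).symm
        rw [h6] at h4
        exact h4.trans h5
  have hall : ∀ (e : V × ZMod 4) (he : G.region e ∈ Sᶜ),
      (G.dual.induce Sᶜ).Reachable ⟨G.region d0, h0⟩ ⟨G.region e, he⟩ := by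
    intro e he
    have : e ∈ {d : V × ZMod 4 | ∀ e : V × ZMod 4, e.1 = d.1 → ∀ he : G.region e ∈ Sᶜ,
      (G.dual.induce Sᶜ).Reachable ⟨G.region d0, h0⟩ ⟨G.region e, he⟩} := by rw [hX]; trivial
    exact this e rfl he
  haveI : Nonempty ↑(Sᶜ) := ⟨⟨_, h0⟩⟩
  refine ⟨?_⟩
  rintro ⟨r, hr⟩ ⟨r', hr'⟩
  obtain ⟨a, rfl⟩ := Quot.exists_rep r
  obtain ⟨b, rfl⟩ := Quot.exists_rep r'
  exact (hall a hr).symm.trans (hall b hr')

/-- There is `δ > 0` such that the dual graph of every reduced non-split link diagram with `n`
crossings has a non-separating independent set with at least `δ n` elements. -/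
theorem result : ∃ δ : ℝ, 0 < δ ∧ ∀ (V : Type) [Fintype V] (G : Diagram V), G.Reduced →
    ∃ S : Finset G.Region, G.dual.IsIndepSet ↑S ∧ (G.dual.induce (↑S : Set G.Region)ᶜ).Connected ∧
      δ * Fintype.card V ≤ S.card := by
  classical
  refine ⟨1 / 80, by norm_num, ?_⟩
  intro V _ G hr
  haveI : Finite G.Region := inferInstanceAs (Finite (Quot _))
  let _ : Fintype G.Region := Fintype.ofFinite _
  have hF : Fintype.card G.Region = Fintype.card V + 2 := by
    rw [← Nat.card_eq_fintype_card]; exact G.euler
  haveI : Nonempty V := by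
    have : 0 < Fintype.card G.Region := by omega
    obtain ⟨r⟩ := Fintype.card_pos_iff.1 this
    obtain ⟨d, _⟩ := Quot.exists_rep r
    exact ⟨d.1⟩
  let fib : G.Region → Finset (V × ZMod 4) := fun r => Finset.univ.filter fun d => G.region d = r
  let low : Finset G.Region := Finset.univ.filter fun r => (fib r).card ≤ 4
  let good : Finset G.Region → Prop := fun S => ∀ d e : V × ZMod 4, d.1 = e.1 →
    G.region d ∈ S → G.region e ∈ S → d = e
  obtain ⟨S, hS, hmax⟩ := Finset.exists_max_image (low.powerset.filter good) Finset.card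
    ⟨∅, by simp [good]⟩
  rw [Finset.mem_filter, Finset.mem_powerset] at hS
  obtain ⟨hSl, hSg⟩ := hS
  have hconn := connected_compl G hr (↑S) (fun d e h1 h2 h3 => hSg d e h1 (by simpa using h2)
    (by simpa using h3))
  refine ⟨S, ?_, hconn, ?_⟩
  · intro r hrS r' hrS' hne hadj
    rw [Diagram.dual, SimpleGraph.fromRel_adj] at hadj
    have key : ∀ r r', r ∈ S → r' ∈ S → r ≠ r' → ¬ ∃ d, G.region d = r ∧ G.region (G.opp d) = r' := by
      rintro r r' h h' hn ⟨d, rfl, rfl⟩
      rw [region_opp] at h' hn
      have := hSg d (roti d) rfl h h'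
      rw [← this] at hn
      exact hn rfl
    rcases hadj.2 with h | h
    · exact key _ _ hrS hrS' hne h
    · exact key _ _ hrS' hrS hne.symm h
  · let N : G.Region → Finset G.Region := fun s =>
      ((fib s) ×ˢ (Finset.univ : Finset (ZMod 4))).image fun p => G.region (p.1.1, p.2)
    have hN : ∀ s ∈ S, (N s).card ≤ 16 := by
      intro s hs
      have := hSl hs
      rw [Finset.mem_filter] at this
      refine Finset.card_image_le.trans ?_
      rw [Finset.card_product, Finset.card_univ, ZMod.card]
      omega
    have hcov : low ⊆ S.biUnion N := by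
      intro r hr1
      rw [Finset.mem_biUnion]
      by_cases hrS : r ∈ S
      · obtain ⟨d, rfl⟩ : ∃ d, G.region d = r := Quot.exists_rep r
        refine ⟨_, hrS, Finset.mem_image.2 ⟨(d, d.2), ?_, rfl⟩⟩
        simp [fib]
      · have hnot : ¬ good (insert r S) := by
          intro hg
          have := hmax (insert r S) (by
            rw [Finset.mem_filter, Finset.mem_powerset]
            exact ⟨Finset.insert_subset hr1 hSl, hg⟩)
          rw [Finset.card_insert_of_notMem hrS] at this
          omega
        simp only [good] at hnot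
        push Not at hnot
        obtain ⟨d, e, hde, hd, he, hne⟩ := hnot
        rw [Finset.mem_insert] at hd he
        have hreg := region_ne G hr d e hde hne
        rcases hd with hd | hd <;> rcases he with he | he
        · exact absurd (hd.trans he.symm) hreg
        · refine ⟨_, he, Finset.mem_image.2 ⟨(e, d.2), ?_, ?_⟩⟩
          · simp [fib]
          · simp only
            rw [← hde, ← hd]
        · refine ⟨_, hd, Finset.mem_image.2 ⟨(d, e.2), ?_, ?_⟩⟩
          · simp [fib]
          · simp only
            rw [hde, ← he]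
        · exact absurd (hSg d e hde hd he) hne
    have h1 : low.card ≤ 16 * S.card := by
      refine (Finset.card_le_card hcov).trans ?_
      rw [mul_comm]
      exact Finset.card_biUnion_le_card_mul _ _ _ hN
    have h2 : Fintype.card (V × ZMod 4) = ∑ r : G.Region, (fib r).card := by
      rw [← Finset.card_univ]
      exact Finset.card_eq_sum_card_fiberwise (fun _ _ => Finset.mem_univ _)
    have h3 : 5 * (Finset.univ.filter fun r : G.Region => ¬ (fib r).card ≤ 4).card ≤
        ∑ r : G.Region, (fib r).card := by
      refine le_trans ?_ (Finset.sum_le_sum_of_subset (Finset.subset_univ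
        (Finset.univ.filter fun r : G.Region => ¬ (fib r).card ≤ 4)))
      rw [mul_comm, ← smul_eq_mul]
      refine Finset.card_nsmul_le_sum _ _ _ ?_
      intro r hr
      rw [Finset.mem_filter] at hr
      omega
    have h4 := Finset.card_filter_add_card_filter_not (s := (Finset.univ : Finset G.Region))
      (fun r : G.Region => (fib r).card ≤ 4)
    rw [Finset.card_univ, hF] at h4
    rw [Fintype.card_prod, ZMod.card] at h2
    have h5 : Fintype.card V ≤ 80 * S.card := by
      change low.card + _ = _ at h4
      omega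
    have h6 : (Fintype.card V : ℝ) ≤ 80 * S.card := by exact_mod_cast h5
    linarith

end Pool.Agent.Results.MP_1d20a2_co.NonSeparating
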